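import Mathlib
import Pool.Agent.X122.LpBasis

/-!
# MP_6095cf_an: quasi-greedy and order-conservative along a sequence does not imply partially greedy
-/

namespace Pool.Agent.Results.MP_6095cf_an.NotEquivalent

open Filter Finset Pool.Agent.X122.LpBasis

/-! ### Definitions (bases indexed by `0, 1, 2, …`; the vector `e_i` of the text is `e (i - 1)`) -/

section Defs

variable {𝕜 : Type} [RCLike 𝕜] {X : Type} [NormedAddCommGroup X] [NormedSpace 𝕜 X]

/-- Semi-normalized Markushevich bases. -/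
def IsMBasis (e : ℕ → X) (es : ℕ → X →L[𝕜] 𝕜) : Prop :=
  (Submodule.span 𝕜 (Set.range e)).topologicalClosure = ⊤ ∧
    (∀ i j, es i (e j) = if i = j then 1 else 0) ∧ (∀ x, (∀ i, es i x = 0) → x = 0) ∧
    ∃ C : ℝ, ∀ i, ‖e i‖ ≤ C ∧ ‖es i‖ ≤ C

/-- The projection `P_A`; the partial sum `S_m` is `proj e es (range m)`. -/
noncomputable def proj (e : ℕ → X) (es : ℕ → X →L[𝕜] 𝕜) (A : Finset ℕ) (x : X) : X :=
  ∑ i ∈ A, es i x • e i

/-- Schauder bases. -/
def IsSchauderBasis (e : ℕ → X) (es : ℕ → X →L[𝕜] 𝕜) : Prop :=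
  IsMBasis e es ∧ ∃ C : ℝ, ∀ m x, ‖proj e es (range m) x‖ ≤ C * ‖x‖

/-- `A` is a greedy set of `x`. -/
def IsGreedySet (es : ℕ → X →L[𝕜] 𝕜) (x : X) (A : Finset ℕ) : Prop :=
  ∀ i ∈ A, ∀ k, k ∉ A → ‖es k x‖ ≤ ‖es i x‖

/-- `𝐧`-quasi-greedy. -/
def QuasiGreedy (n : ℕ → ℕ) (e : ℕ → X) (es : ℕ → X →L[𝕜] 𝕜) : Prop :=
  ∃ C : ℝ, ∀ (x : X) (q : ℕ) (A : Finset ℕ), A.card = n q → IsGreedySet es x A →
    ‖proj e es A x‖ ≤ C * ‖x‖

/-- `𝐧`-partially greedy. -/
def PartiallyGreedy (n : ℕ → ℕ) (e : ℕ → X) (es : ℕ → X →L[𝕜] 𝕜) : Prop :=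
  ∃ C : ℝ, ∀ (x : X) (q : ℕ) (A : Finset ℕ), A.card = n q → IsGreedySet es x A →
    ‖x - proj e es A x‖ ≤ C * ‖x - proj e es (range (n q)) x‖

/-- `𝐧`-order-conservative. -/
def OrderConservative (n : ℕ → ℕ) (e : ℕ → X) : Prop :=
  ∃ C : ℝ, ∀ (A B : Finset ℕ) (q : ℕ), A.card = B.card → (∀ i ∈ A, i < n q) →
    (∀ i ∈ B, n q ≤ i) → ‖∑ i ∈ A, e i‖ ≤ C * ‖∑ i ∈ B, e i‖

end Defs

/-- Arbitrarily large gaps: `limsup n_{k+1} / n_k = ∞`. -/
def LargeGaps (n : ℕ → ℕ) : Prop := ∀ M : ℕ, ∃ᶠ k in atTop, M * n k < n (k + 1)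

/-! ### The example -/

/-- `s_j = 2^(5^j)`. -/
def s (j : ℕ) : ℕ := 2 ^ (5 ^ j)

/-- `n_j = s_j ^ 2`. -/
def nn (j : ℕ) : ℕ := s j ^ 2

/-- `K_j = s_j ^ 6`. -/
def K (j : ℕ) : ℕ := s j ^ 6

lemma s_succ (j : ℕ) : s (j + 1) = s j ^ 5 := by
  unfold s
  rw [← pow_mul, pow_succ]

lemma two_le_s (j : ℕ) : 2 ≤ s j := by
  unfold s
  calc 2 = 2 ^ 1 := rfl
    _ ≤ 2 ^ (5 ^ j) := Nat.pow_le_pow_right (by norm_num) (Nat.one_le_pow _ _ (by norm_num))

lemma s_lt_succ (j : ℕ) : s j < s (j + 1) := by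
  rw [s_succ]
  have := two_le_s j
  calc s j = s j ^ 1 := (pow_one _).symm
    _ < s j ^ 5 := Nat.pow_lt_pow_right (by omega) (by norm_num)

lemma s_strictMono : StrictMono s := strictMono_nat_of_lt_succ s_lt_succ

lemma nn_strictMono : StrictMono nn := fun a b h =>
  Nat.pow_lt_pow_left (s_strictMono h) (by norm_num)

lemma nn_succ (j : ℕ) : nn (j + 1) = s j ^ 10 := by
  unfold nn; rw [s_succ, ← pow_mul]

lemma block_le (j : ℕ) : nn (j + 1) + 2 * K j ≤ nn (j + 2) := by
  have h2 := two_le_s j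
  have e1 : nn (j + 2) = s j ^ 50 := by rw [nn_succ, s_succ, ← pow_mul]
  rw [e1, nn_succ]
  unfold K
  have h3 : s j ^ 6 ≤ s j ^ 10 := Nat.pow_le_pow_right (by omega) (by norm_num)
  have h4 : s j ^ 12 ≤ s j ^ 50 := Nat.pow_le_pow_right (by omega) (by norm_num)
  have h5 : s j ^ 12 = s j ^ 10 * s j ^ 2 := by rw [← pow_add]
  have h6 : 4 ≤ s j ^ 2 := by nlinarith
  nlinarith [Nat.zero_le (s j ^ 10)]

variable {𝕜 : Type} [RCLike 𝕜]

/-- The index set of the functionals. -/
abbrev Om (𝕜 : Type) : Type := (ℕ × ℕ) ⊕ (ℕ × Finset ℕ × (ℕ → 𝕜))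

/-- The level of a functional. -/
def lev : Om 𝕜 → ℕ
  | Sum.inl p => p.1
  | Sum.inr p => p.1

/-- The support of a functional. -/
noncomputable def FF : Om 𝕜 → Finset ℕ
  | Sum.inl p => Ico (nn (p.1 + 1)) (min p.2 (nn (p.1 + 1) + 2 * K p.1))
  | Sum.inr p => open Classical in
      if (∀ i ∈ p.2.1, nn (p.1 + 2) ≤ i) ∧ p.2.1.card ≤ 2 * K p.1 ∧ ∀ i, ‖p.2.2 i‖ ≤ 1 then p.2.1
      else ∅

/-- The signs of a functional. -/
def ww : Om 𝕜 → ℕ → 𝕜
  | Sum.inl _ => fun _ => 1
  | Sum.inr p => p.2.2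

/-- The coefficients. -/
noncomputable def cc (ω : Om 𝕜) (i : ℕ) : 𝕜 := if i ∈ FF ω then ww ω i / (nn (lev ω) : 𝕜) else 0

lemma ww_le (ω : Om 𝕜) (i : ℕ) (hi : i ∈ FF ω) : ‖ww ω i‖ ≤ 1 := by
  rcases ω with p | p
  · simp [ww]
  · unfold FF at hi
    simp only at hi
    split_ifs at hi with h
    · exact h.2.2 i
    · simp at hi

lemma nn_pos (j : ℕ) : 0 < nn j := by
  unfold nn; have := two_le_s j; positivity

lemma nn_real_pos (j : ℕ) : (0 : ℝ) < nn j := by exact_mod_cast nn_pos j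

lemma norm_nn (j : ℕ) : ‖(nn j : 𝕜)‖ = nn j := by simp

lemma hc (ω : Om 𝕜) (i : ℕ) : ‖cc ω i‖ ≤ 1 := by
  unfold cc
  split_ifs with h
  · rw [norm_div, norm_nn, div_le_one (nn_real_pos _)]
    refine le_trans (ww_le ω i h) ?_
    exact_mod_cast nn_pos (lev ω)
  · simp

lemma hF (ω : Om 𝕜) (i : ℕ) (hi : i ∉ FF ω) : cc ω i = 0 := by
  unfold cc; rw [if_neg hi]

lemma card_FF (ω : Om 𝕜) : (FF ω).card ≤ 2 * K (lev ω) := by
  rcases ω with p | p
  · simp only [FF, lev, Nat.card_Ico]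
    omega
  · unfold FF
    simp only [lev]
    split_ifs with h
    · exact h.2.1
    · simp

lemma FF_ge (ω : Om 𝕜) (i : ℕ) (hi : i ∈ FF ω) : nn (lev ω + 1) ≤ i := by
  rcases ω with p | p
  · simp only [FF, lev, mem_Ico] at hi ⊢
    exact hi.1
  · unfold FF at hi
    simp only [lev] at hi ⊢
    split_ifs at hi with h
    · exact le_trans (nn_strictMono.monotone (by omega)) (h.1 i hi)
    · simp at hi

/-- Values of the functionals on combinations. -/
lemma csum (f : ℕ → 𝕜) (A : Finset ℕ) (ω : Om 𝕜) : ∑ i ∈ A, f i * cc ω i =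
    (∑ i ∈ A ∩ FF ω, ww ω i * f i) / (nn (lev ω) : 𝕜) := by
  unfold cc
  rw [Finset.sum_div, ← Finset.sum_filter_add_sum_filter_not A (fun i => i ∈ FF ω)]
  have h1 : ∑ x ∈ A with x ∉ FF ω, f x * (if x ∈ FF ω then ww ω x / (nn (lev ω) : 𝕜) else 0) = 0 := by
    apply Finset.sum_eq_zero
    intro x hx
    rw [if_neg (mem_filter.mp hx).2, mul_zero]
  rw [h1, add_zero]
  have h2 : A.filter (fun i => i ∈ FF ω) = A ∩ FF ω := by
    ext i; simp
  rw [h2]
  apply Finset.sum_congr rfl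
  intro x hx
  rw [if_pos (mem_inter.mp hx).2]
  ring

lemma norm_csum (f : ℕ → 𝕜) (A : Finset ℕ) (ω : Om 𝕜) : ‖∑ i ∈ A, f i * cc ω i‖ =
    ‖∑ i ∈ A ∩ FF ω, ww ω i * f i‖ / nn (lev ω) := by
  rw [csum, norm_div, norm_nn]

/-- The space. -/
abbrev XE (𝕜 : Type) [RCLike 𝕜] : Type := XX (𝕜 := 𝕜) (Ω := Om 𝕜) cc hc

/-- The basis vectors. -/
noncomputable abbrev e (i : ℕ) : XE 𝕜 := ee cc hc i

/-- The coordinate functionals. -/
noncomputable abbrev f (i : ℕ) : XE 𝕜 →L[𝕜] 𝕜 := es cc hc i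

lemma proj_eq (A : Finset ℕ) (x : XE 𝕜) :
    proj e f A x = comb cc hc (fun i => f i x) A := rfl

/-- The functionals are bounded by the norm. -/
lemma fun_le (x : XE 𝕜) (ω : Om 𝕜) : ‖∑ i ∈ FF ω, ww ω i * f i x‖ ≤ nn (lev ω) * ‖x‖ := by
  have h := snd_le hc hF x ω
  have e1 : ∑ i ∈ FF ω, cc ω i * es cc hc i x = ∑ i ∈ FF ω, f i x * cc ω i := by
    apply Finset.sum_congr rfl
    intro i _
    ring
  rw [e1, norm_csum, inter_self, div_le_iff₀ (nn_real_pos _)] at h
  linarith

lemma inl_le (x : XE 𝕜) (j l : ℕ) :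
    ‖∑ i ∈ Ico (nn (j + 1)) (min l (nn (j + 1) + 2 * K j)), f i x‖ ≤ nn j * ‖x‖ := by
  have h := fun_le x (Sum.inl (j, l))
  simpa [FF, ww, lev] using h

lemma inr_le (x : XE 𝕜) (j : ℕ) (A : Finset ℕ) (hA : ∀ i ∈ A, nn (j + 2) ≤ i)
    (hA2 : A.card ≤ 2 * K j) (σ : ℕ → 𝕜) (hσ : ∀ i, ‖σ i‖ ≤ 1) :
    ‖∑ i ∈ A, σ i * f i x‖ ≤ nn j * ‖x‖ := by
  have h := fun_le x (Sum.inr (j, A, σ))
  have hFF : FF (Sum.inr (j, A, σ) : Om 𝕜) = A := by
    unfold FF
    exact if_pos ⟨hA, hA2, hσ⟩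
  rw [hFF] at h
  exact h

/-- General estimate for the projections: it is enough to treat the functionals `inl`. -/
lemma proj_le (x : XE 𝕜) (A : Finset ℕ) {C : ℝ} (hC : 1 ≤ C)
    (h : ∀ j l, ‖∑ i ∈ A ∩ Ico (nn (j + 1)) (min l (nn (j + 1) + 2 * K j)), f i x‖ ≤
      nn j * (C * ‖x‖)) : ‖proj e f A x‖ ≤ C * ‖x‖ := by
  rw [proj_eq]
  have hx := norm_nonneg x
  apply norm_comb_le hc _ _ (by positivity)
  · refine le_trans (sum_es_sq_le hc x A) ?_
    apply pow_le_pow_left₀ hx
    nlinarith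
  · intro ω
    rw [norm_csum, div_le_iff₀ (nn_real_pos _)]
    rcases ω with p | p
    · have := h p.1 p.2
      simp only [FF, ww, lev, one_mul]
      linarith
    · by_cases hcond : (∀ i ∈ p.2.1, nn (p.1 + 2) ≤ i) ∧ p.2.1.card ≤ 2 * K p.1 ∧
        ∀ i, ‖p.2.2 i‖ ≤ 1
      · have hFF : FF (Sum.inr p : Om 𝕜) = p.2.1 := by
          unfold FF; exact if_pos hcond
        rw [hFF]
        have h1 := inr_le x p.1 (A ∩ p.2.1) (fun i hi => hcond.1 i (mem_inter.mp hi).2)
          (le_trans (card_le_card inter_subset_right) hcond.2.1) p.2.2 hcond.2.2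
        have hn := nn_real_pos p.1
        simp only [ww, lev]
        nlinarith [mul_nonneg hn.le hx]
      · have hFF : FF (Sum.inr p : Om 𝕜) = ∅ := by
          unfold FF; exact if_neg hcond
        rw [hFF, inter_empty, sum_empty, norm_zero]
        have := nn_real_pos (lev (Sum.inr p : Om 𝕜))
        positivity

lemma schauder : IsSchauderBasis (e : ℕ → XE 𝕜) f := by
  refine ⟨⟨dense_span hc, biorth hc, fun x hx => total hc hF x hx, 1, fun i => ⟨norm_ee_le hc i, ?_⟩⟩,
    1, ?_⟩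
  · apply ContinuousLinearMap.opNorm_le_bound _ zero_le_one
    intro x
    rw [one_mul]
    exact norm_es_le hc x i
  · intro m x
    apply proj_le x _ le_rfl
    intro j l
    have hset : range m ∩ Ico (nn (j + 1)) (min l (nn (j + 1) + 2 * K j)) =
        Ico (nn (j + 1)) (min (min l m) (nn (j + 1) + 2 * K j)) := by
      ext i
      simp only [mem_inter, mem_range, mem_Ico, lt_min_iff]
      tauto
    rw [hset, one_mul]
    exact inl_le x j _

lemma quasiGreedy : QuasiGreedy nn (e : ℕ → XE 𝕜) f := by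
  refine ⟨2, ?_⟩
  intro x q G hG hgr
  have hx := norm_nonneg x
  apply proj_le x _ (by norm_num)
  intro j l
  set I := Ico (nn (j + 1)) (min l (nn (j + 1) + 2 * K j)) with hI
  have hnj := nn_real_pos j
  rcases Nat.lt_or_ge j q with hjq | hjq
  · -- q ≥ j + 1
    have hsmall : ∀ i, i ∉ G → ‖(f i : XE 𝕜 →L[𝕜] 𝕜) x‖ ≤ ‖x‖ / s q := by
      intro i hi
      have h1 : (nn q : ℝ) * ‖(f i : XE 𝕜 →L[𝕜] 𝕜) x‖ ^ 2 ≤ ‖x‖ ^ 2 := by
        calc (nn q : ℝ) * ‖(f i : XE 𝕜 →L[𝕜] 𝕜) x‖ ^ 2 = ∑ k ∈ G, ‖(f i : XE 𝕜 →L[𝕜] 𝕜) x‖ ^ 2 := by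
              rw [sum_const, hG, nsmul_eq_mul]
          _ ≤ ∑ k ∈ G, ‖(f k : XE 𝕜 →L[𝕜] 𝕜) x‖ ^ 2 := by
              apply Finset.sum_le_sum
              intro k hk
              exact pow_le_pow_left₀ (norm_nonneg _) (hgr k hk i hi) 2
          _ ≤ ‖x‖ ^ 2 := sum_es_sq_le hc x G
      have hs : (0 : ℝ) < s q := by
        have := two_le_s q; positivity
      rw [le_div_iff₀ hs]
      have h2 : (‖(f i : XE 𝕜 →L[𝕜] 𝕜) x‖ * s q) ^ 2 ≤ ‖x‖ ^ 2 := by
        rw [mul_pow]
        unfold nn at h1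
        push_cast at h1
        linarith
      exact (pow_le_pow_iff_left₀ (by positivity) hx (by norm_num)).mp h2
    have hsplit : ∑ i ∈ G ∩ I, (f i : XE 𝕜 →L[𝕜] 𝕜) x =
        ∑ i ∈ I, f i x - ∑ i ∈ I \ G, f i x := by
      rw [eq_sub_iff_add_eq, inter_comm]
      exact Finset.sum_inter_add_sum_sdiff I G _
    rw [hsplit]
    have h1 := inl_le x j l
    have h2 : ‖∑ i ∈ I \ G, (f i : XE 𝕜 →L[𝕜] 𝕜) x‖ ≤ nn j * ‖x‖ := by
      refine le_trans (norm_sum_le _ _) ?_
      have hcard : (I \ G).card ≤ 2 * K j := by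
        refine le_trans (card_le_card sdiff_subset) ?_
        rw [hI, Nat.card_Ico]
        omega
      have hs : (0 : ℝ) < s (j + 1) := by
        have := two_le_s (j + 1); positivity
      have hsq : (s (j + 1) : ℝ) ≤ s q := by
        exact_mod_cast s_strictMono.monotone (by omega : j + 1 ≤ q)
      calc ∑ i ∈ I \ G, ‖(f i : XE 𝕜 →L[𝕜] 𝕜) x‖ ≤ ∑ i ∈ I \ G, ‖x‖ / s (j + 1) := by
            apply Finset.sum_le_sum
            intro i hi
            refine le_trans (hsmall i (mem_sdiff.mp hi).2) ?_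
            exact div_le_div_of_nonneg_left hx hs hsq
        _ = ((I \ G).card : ℝ) * (‖x‖ / s (j + 1)) := by rw [sum_const, nsmul_eq_mul]
        _ ≤ ((2 * K j : ℕ) : ℝ) * (‖x‖ / s (j + 1)) := by
            apply mul_le_mul_of_nonneg_right _ (by positivity)
            exact_mod_cast hcard
        _ = 2 * s j * ‖x‖ := by
            rw [s_succ]
            unfold K
            have hsj : (0 : ℝ) < s j := by have := two_le_s j; positivity
            push_cast
            field_simp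
        _ ≤ nn j * ‖x‖ := by
            apply mul_le_mul_of_nonneg_right _ hx
            have h2 : (2 : ℝ) ≤ s j := by exact_mod_cast two_le_s j
            unfold nn
            push_cast
            nlinarith
    refine le_trans (norm_sub_le _ _) ?_
    linarith
  · -- q ≤ j
    refine le_trans (norm_sum_le _ _) ?_
    have hcard : (G ∩ I).card ≤ nn j := by
      refine le_trans (card_le_card inter_subset_left) ?_
      rw [hG]
      exact nn_strictMono.monotone hjq
    calc ∑ i ∈ G ∩ I, ‖(f i : XE 𝕜 →L[𝕜] 𝕜) x‖ ≤ ∑ i ∈ G ∩ I, ‖x‖ :=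
          Finset.sum_le_sum fun i _ => norm_es_le hc x i
      _ = ((G ∩ I).card : ℝ) * ‖x‖ := by rw [sum_const, nsmul_eq_mul]
      _ ≤ nn j * ‖x‖ := by
          apply mul_le_mul_of_nonneg_right _ hx
          exact_mod_cast hcard
      _ ≤ nn j * (2 * ‖x‖) := by nlinarith [mul_nonneg hnj.le hx]

lemma sum_e_eq (A : Finset ℕ) : ∑ i ∈ A, (e i : XE 𝕜) = comb cc hc (fun _ => 1) A := by
  unfold comb
  simp

lemma orderConservative : OrderConservative nn (e : ℕ → XE 𝕜) := by
  refine ⟨1, ?_⟩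
  intro A B q hcard hA hB
  rw [one_mul, sum_e_eq, sum_e_eq]
  set N : ℝ := ‖comb (cc : Om 𝕜 → ℕ → 𝕜) hc (fun _ => 1) B‖ with hN
  have hN0 : 0 ≤ N := norm_nonneg _
  apply norm_comb_le hc _ _ hN0
  · have := le_norm_comb_fst (c := (cc : Om 𝕜 → ℕ → 𝕜)) hc (fun _ => 1) B
    refine le_trans (le_of_eq ?_) this
    simp [hcard]
  · intro ω
    rw [norm_csum]
    set t := (A ∩ FF ω).card with ht
    have h1 : ‖∑ i ∈ A ∩ FF ω, ww ω i * 1‖ ≤ t := by
      refine le_trans (norm_sum_le _ _) ?_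
      rw [ht, ← nsmul_one, ← sum_const]
      apply Finset.sum_le_sum
      intro i hi
      rw [mul_one]
      exact ww_le ω i (mem_inter.mp hi).2
    rcases Nat.eq_zero_or_pos t with ht0 | htpos
    · rw [ht0] at h1
      have h2 : ‖∑ i ∈ A ∩ FF ω, ww ω i * 1‖ = 0 := le_antisymm (by simpa using h1) (norm_nonneg _)
      rw [h2, zero_div]
      exact hN0
    · obtain ⟨i, hi⟩ := card_pos.mp htpos
      have hi1 := hA i (mem_inter.mp hi).1
      have hi2 := FF_ge ω i (mem_inter.mp hi).2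
      have hq : lev ω + 1 < q := nn_strictMono.lt_iff_lt.mp (lt_of_le_of_lt hi2 hi1)
      have hBlarge : ∀ k ∈ B, nn (lev ω + 2) ≤ k := fun k hk =>
        le_trans (nn_strictMono.monotone (by omega)) (hB k hk)
      have htB : t ≤ B.card := by
        rw [← hcard]; exact card_le_card inter_subset_left
      obtain ⟨B', hB'1, hB'2⟩ := exists_subset_card_eq htB
      have htK : t ≤ 2 * K (lev ω) := le_trans (card_le_card inter_subset_right) (card_FF ω)
      have h3 := le_norm_comb_snd (c := (cc : Om 𝕜 → ℕ → 𝕜)) hc (fun _ => 1) B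
        (Sum.inr (lev ω, B', fun _ => 1))
      rw [norm_csum] at h3
      have hFF : FF (Sum.inr (lev ω, B', fun _ => 1) : Om 𝕜) = B' := by
        unfold FF
        exact if_pos ⟨fun k hk => hBlarge k (hB'1 hk), by rw [hB'2]; exact htK, by simp⟩
      rw [hFF, inter_eq_right.mpr hB'1] at h3
      simp only [ww, lev, mul_one, sum_const, hB'2, nsmul_eq_mul] at h3
      rw [RCLike.norm_natCast] at h3
      refine le_trans ?_ h3
      exact div_le_div_of_nonneg_right h1 (nn_real_pos _).le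

/-- Alternating sums are bounded. -/
lemma alt_sum_le (a b : ℕ) : ‖∑ i ∈ Ico a b, ((-1 : 𝕜)) ^ (i - a)‖ ≤ 1 := by
  rw [Finset.sum_Ico_eq_sum_range]
  simp only [Nat.add_sub_cancel_left]
  rw [neg_one_geom_sum]
  split_ifs <;> simp

lemma not_partiallyGreedy : ¬ PartiallyGreedy nn (e : ℕ → XE 𝕜) f := by
  rintro ⟨C, hCpg⟩
  -- choose j
  obtain ⟨j, hj⟩ : ∃ j, 2 * |C| < (s j : ℝ) := by
    obtain ⟨N, hN⟩ := exists_nat_gt (2 * |C|)
    refine ⟨N, lt_of_lt_of_le hN ?_⟩
    exact_mod_cast s_strictMono.le_apply (x := N)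
  set a := nn (j + 1) with ha
  set k := K j with hk
  set I := Ico a (a + 2 * k) with hI
  set Ev := I.filter (fun i => Even (i - a)) with hEv
  set Od := I.filter (fun i => ¬ Even (i - a)) with hOd
  have hka : k ≤ a := by
    rw [hk, ha, nn_succ]
    unfold K
    exact Nat.pow_le_pow_right (by have := two_le_s j; omega) (by norm_num)
  set Lo := range (a - k) with hLo
  set g : ℕ → 𝕜 := fun i => if i < a then 1 else (-1) ^ (i - a) with hg
  have hgn : ∀ i, ‖g i‖ = 1 := by
    intro i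
    simp only [hg]
    split_ifs <;> simp
  have hLoI : Disjoint Lo I := by
    rw [Finset.disjoint_left]
    intro i hi hi'
    rw [hLo, mem_range] at hi
    rw [hI, mem_Ico] at hi'
    omega
  have hEvOd : Disjoint Ev Od := disjoint_filter_filter_not I I _
  have hEvOdU : Ev ∪ Od = I := filter_union_filter_not_eq _ I
  have hOdcard : Od.card = k := by
    have himg : Od = (range k).image (fun t => a + (2 * t + 1)) := by
      ext i
      simp only [hOd, hI, mem_filter, mem_Ico, mem_image, mem_range, Nat.not_even_iff_odd]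
      constructor
      · rintro ⟨⟨h1, h2⟩, t, ht⟩
        exact ⟨t, by omega, by omega⟩
      · rintro ⟨t, ht, rfl⟩
        exact ⟨⟨by omega, by omega⟩, t, by omega⟩
    rw [himg, card_image_of_injective _ (fun x y h => by simpa using h), card_range]
  have hEvcard : Ev.card = k := by
    have h1 : Ev.card + Od.card = I.card := by
      rw [← card_union_of_disjoint hEvOd, hEvOdU]
    rw [hOdcard, hI, Nat.card_Ico] at h1
    omega
  set G := Lo ∪ Ev with hG
  have hLoEv : Disjoint Lo Ev := hLoI.mono_right (filter_subset _ _)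
  have hGcard : G.card = nn (j + 1) := by
    rw [hG, card_union_of_disjoint hLoEv, hEvcard, hLo, card_range, ← ha]
    omega
  set x : XE 𝕜 := comb cc hc g (Lo ∪ I) with hx
  have hcoord : ∀ i, f i x = if i ∈ Lo ∪ I then g i else 0 := by
    intro i
    rw [hx]
    unfold comb
    rw [map_sum]
    simp only [map_smul, biorth, smul_eq_mul]
    split_ifs with h
    · rw [Finset.sum_eq_single i]
      · rw [if_pos rfl, mul_one]
      · intro b _ hb
        rw [if_neg (Ne.symm hb), mul_zero]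
      · intro h'; exact absurd h h'
    · apply Finset.sum_eq_zero
      intro b hb
      rw [if_neg (fun h' => h (by rw [h']; exact hb)), mul_zero]
  have hGsub : G ⊆ Lo ∪ I := union_subset_union_right (filter_subset _ _)
  have hgreedy : IsGreedySet (f : ℕ → XE 𝕜 →L[𝕜] 𝕜) x G := by
    intro i hi l _
    rw [hcoord, hcoord, if_pos (hGsub hi), hgn]
    split_ifs
    · rw [hgn]
    · simp
  have hmain := hCpg x (j + 1) G hGcard hgreedy
  -- x - P_G x
  have hproj : ∀ A : Finset ℕ, proj e f A x = comb cc hc g (A ∩ (Lo ∪ I)) := by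
    intro A
    unfold proj comb
    rw [← Finset.sum_filter_add_sum_filter_not A (fun i => i ∈ Lo ∪ I)]
    have h0 : ∑ i ∈ A with i ∉ Lo ∪ I, (f i : XE 𝕜 →L[𝕜] 𝕜) x • (e i : XE 𝕜) = 0 := by
      apply Finset.sum_eq_zero
      intro i hi
      rw [hcoord, if_neg (mem_filter.mp hi).2, zero_smul]
    rw [h0, add_zero, filter_mem_eq_inter]
    apply Finset.sum_congr rfl
    intro i hi
    rw [hcoord, if_pos (mem_inter.mp hi).2]
  have hcombU : ∀ A B : Finset ℕ, Disjoint A B →
      comb cc hc g (A ∪ B) = comb (cc : Om 𝕜 → ℕ → 𝕜) hc g A + comb cc hc g B := by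
    intro A B hAB
    unfold comb
    rw [sum_union hAB]
  have hGOd : Disjoint G Od := by
    rw [hG, disjoint_union_left]
    exact ⟨hLoI.mono_right (filter_subset _ _), hEvOd⟩
  have hGOdU : G ∪ Od = Lo ∪ I := by
    rw [hG, union_assoc, hEvOdU]
  have h1 : x - proj e f G x = comb cc hc g Od := by
    rw [hproj, inter_eq_left.mpr hGsub, hx, ← hGOdU, hcombU _ _ hGOd, add_sub_cancel_left]
  have h2 : x - proj e f (range (nn (j + 1))) x = comb cc hc g I := by
    have hr : range (nn (j + 1)) ∩ (Lo ∪ I) = Lo := by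
      rw [inter_union_distrib_left]
      have e1 : range (nn (j + 1)) ∩ Lo = Lo := by
        apply inter_eq_right.mpr
        rw [hLo, ← ha]
        exact range_mono (by omega)
      have e2 : range (nn (j + 1)) ∩ I = ∅ := by
        rw [← disjoint_iff_inter_eq_empty, Finset.disjoint_left]
        intro i hi hi'
        rw [mem_range] at hi
        rw [hI, mem_Ico] at hi'
        omega
      rw [e1, e2, union_empty]
    rw [hproj, hr, hx, hcombU _ _ hLoI, add_sub_cancel_left]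
  rw [h1, h2] at hmain
  have hsj : (2 : ℝ) ≤ s j := by exact_mod_cast two_le_s j
  -- lower bound
  have hlow : (s j : ℝ) ^ 4 ≤ ‖comb (cc : Om 𝕜 → ℕ → 𝕜) hc g Od‖ := by
    have h3 := le_norm_comb_snd (c := (cc : Om 𝕜 → ℕ → 𝕜)) hc g Od (Sum.inl (j, a + 2 * k))
    rw [norm_csum] at h3
    have hFF : FF (Sum.inl (j, a + 2 * k) : Om 𝕜) = I := by
      simp only [FF]
      rw [← ha, ← hk, min_self]
    rw [hFF, inter_eq_left.mpr (filter_subset _ _ : Od ⊆ I)] at h3
    have hval : ∑ i ∈ Od, ww (Sum.inl (j, a + 2 * k) : Om 𝕜) i * g i = -(k : 𝕜) := by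
      have : ∀ i ∈ Od, ww (Sum.inl (j, a + 2 * k) : Om 𝕜) i * g i = -1 := by
        intro i hi
        rw [hOd, mem_filter, hI, mem_Ico] at hi
        simp only [ww, hg, one_mul]
        rw [if_neg (by omega)]
        exact (Nat.not_even_iff_odd.mp hi.2).neg_one_pow
      rw [Finset.sum_congr rfl this, sum_const, hOdcard, nsmul_eq_mul]
      ring
    rw [hval, norm_neg, RCLike.norm_natCast] at h3
    refine le_trans (le_of_eq ?_) h3
    simp only [lev, hk]
    unfold K nn
    push_cast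
    field_simp
  -- upper bound
  have hup : ‖comb (cc : Om 𝕜 → ℕ → 𝕜) hc g I‖ ≤ 2 * (s j : ℝ) ^ 3 := by
    apply norm_comb_le hc _ _ (by positivity)
    · simp only [hgn, one_pow, sum_const, nsmul_eq_mul, mul_one]
      rw [hI, Nat.card_Ico, hk]
      unfold K
      have : a + 2 * s j ^ 6 - a = 2 * s j ^ 6 := by omega
      rw [this]
      push_cast
      have h6 : (0 : ℝ) ≤ (s j : ℝ) ^ 6 := by positivity
      nlinarith
    · intro ω
      rw [norm_csum, div_le_iff₀ (nn_real_pos _)]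
      have hs3 : (s j : ℝ) ≤ 2 * (s j : ℝ) ^ 3 := by
        have : (s j : ℝ) * 1 ≤ (s j : ℝ) * (s j : ℝ) ^ 2 := by
          apply mul_le_mul_of_nonneg_left _ (by positivity)
          nlinarith
        nlinarith [pow_pos (by linarith : (0 : ℝ) < s j) 3]
      have hzero : I ∩ FF ω = ∅ → ‖∑ i ∈ I ∩ FF ω, ww ω i * g i‖ ≤
          2 * (s j : ℝ) ^ 3 * (nn (lev ω) : ℝ) := by
        intro h
        rw [h, sum_empty, norm_zero]
        positivity
      -- large levels
      rcases lt_trichotomy (lev ω) j with hlt | heq | hgt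
      · -- lev < j
        have h3 : ‖∑ i ∈ I ∩ FF ω, ww ω i * g i‖ ≤ 2 * K (lev ω) := by
          refine le_trans (norm_sum_le _ _) ?_
          calc ∑ i ∈ I ∩ FF ω, ‖ww ω i * g i‖ ≤ ∑ i ∈ I ∩ FF ω, (1 : ℝ) := by
                apply Finset.sum_le_sum
                intro i hi
                rw [norm_mul, hgn, mul_one]
                exact ww_le ω i (mem_inter.mp hi).2
            _ = ((I ∩ FF ω).card : ℝ) := by simp
            _ ≤ ((2 * K (lev ω) : ℕ) : ℝ) := by
                exact_mod_cast le_trans (card_le_card inter_subset_right) (card_FF ω)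
            _ = 2 * K (lev ω) := by push_cast; ring
        refine le_trans h3 ?_
        have h4 : (s (lev ω + 1) : ℝ) ≤ s j := by
          exact_mod_cast s_strictMono.monotone (by omega : lev ω + 1 ≤ j)
        rw [s_succ] at h4
        push_cast at h4
        have h5 : (2 : ℝ) ≤ s (lev ω) := by exact_mod_cast two_le_s (lev ω)
        unfold K nn
        push_cast
        have h6 : 2 * (s (lev ω) : ℝ) ^ 4 ≤ (s (lev ω) : ℝ) ^ 5 := by
          have : (0 : ℝ) ≤ (s (lev ω) : ℝ) ^ 4 := by positivity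
          nlinarith
        have h7 : (0 : ℝ) ≤ (s (lev ω) : ℝ) ^ 2 := by positivity
        calc 2 * (s (lev ω) : ℝ) ^ 6 = (2 * (s (lev ω) : ℝ) ^ 4) * (s (lev ω) : ℝ) ^ 2 := by ring
          _ ≤ (2 * (s j : ℝ) ^ 3) * (s (lev ω) : ℝ) ^ 2 := by
              apply mul_le_mul_of_nonneg_right _ h7
              linarith
      · -- lev = j
        rcases ω with p | p
        · simp only [lev] at heq
          have hFF : FF (Sum.inl p : Om 𝕜) = Ico a (min p.2 (a + 2 * k)) := by
            simp only [FF]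
            rw [heq, ← ha, ← hk]
          have hint : I ∩ FF (Sum.inl p : Om 𝕜) = Ico a (min p.2 (a + 2 * k)) := by
            rw [hFF, hI]
            ext i
            simp only [mem_inter, mem_Ico, lt_min_iff]
            tauto
          rw [hint]
          have hsum : ∑ i ∈ Ico a (min p.2 (a + 2 * k)), ww (Sum.inl p : Om 𝕜) i * g i =
              ∑ i ∈ Ico a (min p.2 (a + 2 * k)), (-1 : 𝕜) ^ (i - a) := by
            apply Finset.sum_congr rfl
            intro i hi
            rw [mem_Ico] at hi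
            simp only [ww, hg, one_mul]
            rw [if_neg (by omega)]
          rw [hsum]
          refine le_trans (alt_sum_le _ _) ?_
          have h8 : (1 : ℝ) ≤ nn (lev (Sum.inl p : Om 𝕜)) := by exact_mod_cast nn_pos _
          nlinarith [pow_pos (by linarith : (0 : ℝ) < s j) 3]
        · simp only [lev] at heq
          apply hzero
          rw [← disjoint_iff_inter_eq_empty, Finset.disjoint_left]
          intro i hi hi'
          unfold FF at hi'
          simp only at hi'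
          split_ifs at hi' with h
          · have h9 := h.1 i hi'
            rw [heq] at h9
            rw [hI, mem_Ico, ha, hk] at hi
            have := block_le j
            omega
          · simp at hi'
      · -- lev > j
        apply hzero
        rw [← disjoint_iff_inter_eq_empty, Finset.disjoint_left]
        intro i hi hi'
        have h9 := FF_ge ω i hi'
        have h10 : nn (j + 2) ≤ nn (lev ω + 1) := nn_strictMono.monotone (by omega)
        rw [hI, mem_Ico, ha, hk] at hi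
        have := block_le j
        omega
  have hfinal : (s j : ℝ) ^ 4 ≤ |C| * (2 * (s j : ℝ) ^ 3) := by
    calc (s j : ℝ) ^ 4 ≤ C * ‖comb (cc : Om 𝕜 → ℕ → 𝕜) hc g I‖ := le_trans hlow hmain
      _ ≤ |C| * ‖comb (cc : Om 𝕜 → ℕ → 𝕜) hc g I‖ :=
          mul_le_mul_of_nonneg_right (le_abs_self C) (norm_nonneg _)
      _ ≤ |C| * (2 * (s j : ℝ) ^ 3) := mul_le_mul_of_nonneg_left hup (abs_nonneg C)
  have h3 : (0 : ℝ) < (s j : ℝ) ^ 3 := by positivity
  nlinarith

/-- Over `ℝ` and over `ℂ` there are a sequence with arbitrarily large gaps and a Schauder basis of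
a Banach space which is quasi-greedy and order-conservative along the sequence, but not partially
greedy along it. -/
theorem result (𝕜 : Type) [RCLike 𝕜] :
    ∃ n : ℕ → ℕ, StrictMono n ∧ (∀ k, 0 < n k) ∧ LargeGaps n ∧
      ∃ (X : Type) (_ : NormedAddCommGroup X) (_ : NormedSpace 𝕜 X) (_ : CompleteSpace X)
        (e : ℕ → X) (es : ℕ → X →L[𝕜] 𝕜),
        IsSchauderBasis e es ∧ QuasiGreedy n e es ∧ OrderConservative n e ∧
          ¬ PartiallyGreedy n e es := by
  refine ⟨nn, nn_strictMono, nn_pos, ?_, XE 𝕜, inferInstance, inferInstance, inferInstance, e, f,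
    schauder, quasiGreedy, orderConservative, not_partiallyGreedy⟩
  intro M
  apply Eventually.frequently
  filter_upwards [eventually_ge_atTop M] with k hk
  rw [nn_succ]
  unfold nn
  have h1 : k ≤ s k := s_strictMono.le_apply
  have h2 := two_le_s k
  calc M * s k ^ 2 ≤ s k * s k ^ 2 := Nat.mul_le_mul_right _ (le_trans hk h1)
    _ = s k ^ 3 := by ring
    _ < s k ^ 10 := Nat.pow_lt_pow_right (by omega) (by norm_num)

end Pool.Agent.Results.MP_6095cf_an.NotEquivalent
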